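import Pool.Agent.J4H45.GT.Stm

set_option autoImplicit false

/-! # Project GT, (HV1): Cauchy-Schwarz for fixed positions and a product over the columns -/

namespace Pool.Agent.J4H72.GT

open Pool.Agent.N631.SX Pool.Agent.J4H45.GT

theorem tw_norm {z : ℂ} (hz : ‖z‖ = 1) (b : Bool) : ‖tw z b‖ = 1 := by
  unfold tw
  split_ifs
  · exact hz
  · exact norm_one

theorem tw_or {z : ℂ} (hz : ‖z‖ = 1) (b b' s : Bool) :
    tw z (b || s) * (starRingEnd ℂ) (tw z (b' || s)) =
      if s = true then 1 else tw z b * (starRingEnd ℂ) (tw z b') := by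
  cases s
  · simp
  · simp only [Bool.or_true, if_true, tw]
    rw [Complex.mul_conj, Complex.normSq_eq_norm_sq, hz]
    simp

theorem sum_y {k : ℕ} {O : Type} [Fintype O] [DecidableEq O] (ζ : Fin k → ℂ)
    (hζ : ∀ i, ‖ζ i‖ = 1) (o : Fin k → O) (x x' : Fin k → Bool) :
    ∑ y : O → Bool, ∏ i, (tw (ζ i) (x i || y (o i)) *
      (starRingEnd ℂ) (tw (ζ i) (x' i || y (o i)))) =
    ∏ a : O, (1 + ∏ i ∈ Finset.univ.filter (fun i => o i = a),
      (tw (ζ i) (x i) * (starRingEnd ℂ) (tw (ζ i) (x' i)))) := by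
  have h1 : ∀ a : O, (1 + ∏ i ∈ Finset.univ.filter (fun i => o i = a),
      (tw (ζ i) (x i) * (starRingEnd ℂ) (tw (ζ i) (x' i)))) =
      ∑ b : Bool, (if b = true then 1 else ∏ i ∈ Finset.univ.filter (fun i => o i = a),
      (tw (ζ i) (x i) * (starRingEnd ℂ) (tw (ζ i) (x' i)))) := by
    intro a
    rw [Fintype.sum_bool]
    simp
  have h5 := Finset.prod_univ_sum (fun _ : O => (Finset.univ : Finset Bool))
    (fun a b => (if b = true then 1 else ∏ i ∈ Finset.univ.filter (fun i => o i = a),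
      (tw (ζ i) (x i) * (starRingEnd ℂ) (tw (ζ i) (x' i)))))
  rw [Fintype.piFinset_univ] at h5
  rw [Finset.prod_congr rfl fun a _ => h1 a, h5]
  refine Finset.sum_congr rfl fun y _ => ?_
  rw [← Finset.prod_fiberwise (s := Finset.univ) (g := o)]
  refine Finset.prod_congr rfl fun a _ => ?_
  by_cases hy : y a = true
  · rw [if_pos hy]
    refine Finset.prod_eq_one fun i hi => ?_
    rw [(Finset.mem_filter.1 hi).2, tw_or (hζ i), if_pos hy]
  · rw [if_neg hy]
    refine Finset.prod_congr rfl fun i hi => ?_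
    rw [(Finset.mem_filter.1 hi).2, tw_or (hζ i), if_neg hy]

theorem sum_y_norm {k : ℕ} {O : Type} [Fintype O] [DecidableEq O] (ζ : Fin k → ℂ)
    (hζ : ∀ i, ‖ζ i‖ = 1) (o : Fin k → O) (x x' : Fin k → Bool) :
    ‖∑ y : O → Bool, ∏ i, (tw (ζ i) (x i || y (o i)) *
      (starRingEnd ℂ) (tw (ζ i) (x' i || y (o i))))‖ =
    (Fintype.card (O → Bool) : ℝ) * YY ζ o x x' := by
  rw [sum_y ζ hζ o x x', norm_prod, YY, Finset.prod_div_distrib, Finset.prod_const,
    Finset.card_univ, Fintype.card_fun, Fintype.card_bool]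
  push_cast
  field_simp

variable {k q : ℕ}

/-- the factor of the column `j` -/
noncomputable def colG (ζ : Fin k → ℂ) (i0 j0 : Fin k) (a : Fin k → Fin q)
    (x : Fin k → Option (Fin q) → Bool) (j : Fin k) (p : C q) : ℂ :=
  ∏ i, tw (ζ i) (zz i0 j0 (fun i => (x i, a i)) (fun _ => p) i j)

theorem colG_norm {ζ : Fin k → ℂ} (hζ : ∀ i, ‖ζ i‖ = 1) (i0 j0 : Fin k) (a : Fin k → Fin q)
    (x : Fin k → Option (Fin q) → Bool) (j : Fin k) (p : C q) :
    ‖colG ζ i0 j0 a x j p‖ = 1 := by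
  rw [colG, norm_prod]
  exact Finset.prod_eq_one fun i _ => tw_norm (hζ i) _

theorem kerG_col (ζ : Fin k → Fin k → ℂ) (i0 j0 : Fin k) (a : Fin k → Fin q)
    (x : Fin k → Option (Fin q) → Bool) (w : U k q) :
    kerG i0 j0 ζ (fun i => (x i, a i)) w =
      ∏ j, colG (fun i => ζ i j) i0 j0 a x j (w j) := by
  unfold kerG
  rw [Finset.prod_comm]
  rfl

theorem colG_sum {ζ : Fin k → ℂ} (hζ : ∀ i, ‖ζ i‖ = 1) {i0 j0 : Fin k} (a : Fin k → Fin q)
    (x x' : Fin k → Option (Fin q) → Bool) {j : Fin k} (hj : j ≠ j0) (hq : 1 ≤ q) :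
    ‖∑ p : C q, colG ζ i0 j0 a x j p * (starRingEnd ℂ) (colG ζ i0 j0 a x' j p)‖ ≤
      (Fintype.card (C q) : ℝ) * ((1 / (q : ℝ)) * ∑ β : Fin q,
        YY ζ (fun i => if i = i0 then none else some (a i))
          (fun i => x i (some β)) (fun i => x' i (some β))) := by
  rw [Fintype.sum_prod_type_right]
  refine (norm_sum_le _ _).trans ?_
  have h1 : ∀ β : Fin q, ‖∑ y : Option (Fin q) → Bool,
      colG ζ i0 j0 a x j (y, β) * (starRingEnd ℂ) (colG ζ i0 j0 a x' j (y, β))‖ =
      (Fintype.card (Option (Fin q) → Bool) : ℝ) *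
        YY ζ (fun i => if i = i0 then none else some (a i))
          (fun i => x i (some β)) (fun i => x' i (some β)) := by
    intro β
    rw [← sum_y_norm ζ hζ]
    congr 1
    refine Finset.sum_congr rfl fun y _ => ?_
    unfold colG
    rw [map_prod, ← Finset.prod_mul_distrib]
    refine Finset.prod_congr rfl fun i _ => ?_
    have h2 : ∀ x : Fin k → Option (Fin q) → Bool,
        zz i0 j0 (fun i => (x i, a i)) (fun _ => (y, β)) i j =
          (x i (some β) || y (if i = i0 then none else some (a i))) := by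
      intro x
      simp only [zz, pt, loc, hj, if_false, false_and, reduceCtorEq, and_false]
    rw [h2 x, h2 x']
  rw [Finset.sum_congr rfl fun β _ => h1 β, ← Finset.mul_sum, Fintype.card_prod, Fintype.card_fin]
  have hq' : (0 : ℝ) < q := by exact_mod_cast hq
  push_cast
  apply le_of_eq
  field_simp

theorem pair_sumG {ζ : Fin k → Fin k → ℂ} (hζ : ∀ i j, ‖ζ i j‖ = 1) {i0 j0 : Fin k}
    (a : Fin k → Fin q) (J : Finset (Fin k)) (hJ : j0 ∉ J) (hq : 1 ≤ q)
    (x x' : Fin k → Option (Fin q) → Bool) :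
    ‖∑ w : U k q, kerG i0 j0 ζ (fun i => (x i, a i)) w *
      (starRingEnd ℂ) (kerG i0 j0 ζ (fun i => (x' i, a i)) w)‖ ≤
    (Fintype.card (U k q) : ℝ) * ∏ j ∈ J, ((1 / (q : ℝ)) * ∑ β : Fin q,
      YY (fun i => ζ i j) (fun i => if i = i0 then none else some (a i))
        (fun i => x i (some β)) (fun i => x' i (some β))) := by
  have h2 : ∑ w : U k q, kerG i0 j0 ζ (fun i => (x i, a i)) w *
      (starRingEnd ℂ) (kerG i0 j0 ζ (fun i => (x' i, a i)) w) =
      ∏ j, ∑ p : C q, colG (fun i => ζ i j) i0 j0 a x j p *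
        (starRingEnd ℂ) (colG (fun i => ζ i j) i0 j0 a x' j p) := by
    have h5 := Finset.prod_univ_sum (fun _ : Fin k => (Finset.univ : Finset (C q)))
      (fun j p => colG (fun i => ζ i j) i0 j0 a x j p *
        (starRingEnd ℂ) (colG (fun i => ζ i j) i0 j0 a x' j p))
    rw [Fintype.piFinset_univ] at h5
    rw [h5]
    refine Finset.sum_congr rfl fun w _ => ?_
    rw [Finset.prod_mul_distrib, kerG_col, kerG_col, map_prod]
  obtain ⟨NC, hNCdef⟩ : ∃ NC : ℝ, NC = Fintype.card (C q) := ⟨_, rfl⟩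
  have hNC : 0 ≤ NC := by rw [hNCdef]; positivity
  rw [h2, norm_prod]
  have h3 : ∀ j, ‖∑ p : C q, colG (fun i => ζ i j) i0 j0 a x j p *
        (starRingEnd ℂ) (colG (fun i => ζ i j) i0 j0 a x' j p)‖ ≤
      NC * (if j ∈ J then ((1 / (q : ℝ)) * ∑ β : Fin q,
      YY (fun i => ζ i j) (fun i => if i = i0 then none else some (a i))
        (fun i => x i (some β)) (fun i => x' i (some β))) else 1) := by
    intro j
    by_cases hj : j ∈ J
    · rw [if_pos hj, hNCdef]
      exact colG_sum (fun i => hζ i j) a x x' (fun h => hJ (h ▸ hj)) hq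
    · rw [if_neg hj, mul_one]
      refine (norm_sum_le _ _).trans ?_
      rw [Finset.sum_congr rfl fun y _ => by
        rw [norm_mul, RCLike.norm_conj, colG_norm (fun i => hζ i j), colG_norm (fun i => hζ i j),
          mul_one]]
      simp [hNCdef]
  refine (Finset.prod_le_prod (fun j _ => norm_nonneg _) fun j _ => h3 j).trans (le_of_eq ?_)
  rw [Finset.prod_mul_distrib, Finset.prod_const, Finset.card_univ, Fintype.card_fin]
  have hcard : (Fintype.card (U k q) : ℝ) = NC ^ k := by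
    rw [hNCdef]
    simp [U, Fintype.card_pi]
  rw [hcard]
  congr 1
  rw [Finset.prod_ite_mem, Finset.univ_inter]

theorem t_HV1 : S_HV1 := by
  intro k q i0 j0 ζ a J hq hζ hJ F G hF hG
  obtain ⟨S, hS⟩ : ∃ S : U k q → ℂ, S = fun w => ∑ x : Fin k → Option (Fin q) → Bool,
    F x * kerG i0 j0 ζ (fun i => (x i, a i)) w := ⟨_, rfl⟩
  have h1 : ∑ x : Fin k → Option (Fin q) → Bool, ∑ w : U k q,
      F x * G w * kerG i0 j0 ζ (fun i => (x i, a i)) w = ∑ w : U k q, G w * S w := by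
    rw [Finset.sum_comm]
    refine Finset.sum_congr rfl fun w _ => ?_
    rw [hS, Finset.mul_sum]
    refine Finset.sum_congr rfl fun x _ => ?_
    ring
  rw [h1]
  have h2 : ‖∑ w : U k q, G w * S w‖ ≤ ∑ w : U k q, ‖S w‖ := by
    refine (norm_sum_le _ _).trans (Finset.sum_le_sum fun w _ => ?_)
    rw [norm_mul]
    exact mul_le_of_le_one_left (norm_nonneg _) (hG w)
  have h3 : (∑ w : U k q, ‖S w‖) ^ 2 ≤ (Fintype.card (U k q) : ℝ) * ∑ w : U k q, ‖S w‖ ^ 2 := by
    have := sq_sum_le_card_mul_sum_sq (s := (Finset.univ : Finset (U k q))) (f := fun w => ‖S w‖)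
    rwa [Finset.card_univ] at this
  have h4 : ∑ w : U k q, ‖S w‖ ^ 2 ≤ (Fintype.card (U k q) : ℝ) *
      ∑ x : Fin k → Option (Fin q) → Bool, ∑ x' : Fin k → Option (Fin q) → Bool,
        ∏ j ∈ J, ((1 / (q : ℝ)) * ∑ β : Fin q,
        YY (fun i => ζ i j) (fun i => if i = i0 then none else some (a i))
        (fun i => x i (some β)) (fun i => x' i (some β))) := by
    have e1 : ((∑ w : U k q, ‖S w‖ ^ 2 : ℝ) : ℂ) =
        ∑ x : Fin k → Option (Fin q) → Bool, ∑ x' : Fin k → Option (Fin q) → Bool,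
          F x * (starRingEnd ℂ) (F x') * ∑ w : U k q, kerG i0 j0 ζ (fun i => (x i, a i)) w *
      (starRingEnd ℂ) (kerG i0 j0 ζ (fun i => (x' i, a i)) w) := by
      push_cast
      have e2 : ∀ w : U k q, ((‖S w‖ : ℂ)) ^ 2 = ∑ x : Fin k → Option (Fin q) → Bool,
          ∑ x' : Fin k → Option (Fin q) → Bool, F x * (starRingEnd ℂ) (F x') *
          (kerG i0 j0 ζ (fun i => (x i, a i)) w *
      (starRingEnd ℂ) (kerG i0 j0 ζ (fun i => (x' i, a i)) w)) := by
        intro w
        rw [← Complex.mul_conj', hS]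
        simp only [map_sum, map_mul]
        rw [Finset.sum_mul_sum]
        refine Finset.sum_congr rfl fun x _ => Finset.sum_congr rfl fun x' _ => ?_
        ring
      rw [Finset.sum_congr rfl fun w _ => e2 w, Finset.sum_comm]
      refine Finset.sum_congr rfl fun x _ => ?_
      rw [Finset.sum_comm]
      refine Finset.sum_congr rfl fun x' _ => ?_
      rw [Finset.mul_sum]
    have e3 : (∑ w : U k q, ‖S w‖ ^ 2) = ‖((∑ w : U k q, ‖S w‖ ^ 2 : ℝ) : ℂ)‖ := by
      rw [Complex.norm_real, Real.norm_of_nonneg (Finset.sum_nonneg fun w _ => by positivity)]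
    rw [e3, e1, Finset.mul_sum]
    refine (norm_sum_le _ _).trans (Finset.sum_le_sum fun x _ => ?_)
    rw [Finset.mul_sum]
    refine (norm_sum_le _ _).trans (Finset.sum_le_sum fun x' _ => ?_)
    rw [norm_mul, norm_mul, RCLike.norm_conj]
    refine le_trans ?_ (pair_sumG hζ a J hJ hq x x')
    refine mul_le_of_le_one_left (norm_nonneg _) ?_
    exact mul_le_one₀ (hF x) (norm_nonneg _) (hF x')
  calc ‖∑ w : U k q, G w * S w‖ ^ 2 ≤ (∑ w : U k q, ‖S w‖) ^ 2 :=
        pow_le_pow_left₀ (norm_nonneg _) h2 2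
    _ ≤ (Fintype.card (U k q) : ℝ) * ∑ w : U k q, ‖S w‖ ^ 2 := h3
    _ ≤ (Fintype.card (U k q) : ℝ) * _ := mul_le_mul_of_nonneg_left h4 (by positivity)
    _ = _ := by ring

end Pool.Agent.J4H72.GT
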